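import Pool.Agent.H88.GJ.Half
import Pool.Agent.H95.HK.Gr

/-!
# GJ, Red: reduction of the class group

`v` a valuation of `K`, `a i` integral.  `ra v a` is the reduction of `a`, `redS v S` the reductions of the points
of `S` with integral coordinates.
PROOF.  `red_mem`: induction; if `z = u + w y` is in `pI P * I`, `P = (p, b)` integral, then `z (y + b) = (x - p) z'`, `z, z'` in `I`; so
`z * pI (w P) <= pI P * pI (w P) * I` modulo `v`, cancel `pI (w P)`.  `red_one`: if `prod pI = (z)`, `z` of Gauss norm one, then the norm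
of `z` modulo `v` is a constant times the product of `x - p`, `p` integral (`q_red`: the factors `x - p`, `v p > 1`, are
constant modulo `v` after scaling), so the degrees are the same.
-/

set_option autoImplicit false

namespace GJ

open Polynomial HK

section elements

variable {K : Type*} [Field K] {Γ : Type*} [LinearOrderedCommGroupWithZero Γ] (v : Valuation K Γ)

theorem re_of {c : K} (hc : v c ≤ 1) :
    re v c = IsLocalRing.residue v.valuationSubring ⟨c, hc⟩ := by
  unfold re
  rw [dif_pos hc]

theorem re_mul {c d : K} (hc : v c ≤ 1) (hd : v d ≤ 1) : re v (c * d) = re v c * re v d := by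
  have h : v (c * d) ≤ 1 := by
    rw [map_mul]
    exact mul_le_one' hc hd
  rw [re_of v hc, re_of v hd, re_of v h, ← map_mul]
  rfl

theorem re_add {c d : K} (hc : v c ≤ 1) (hd : v d ≤ 1) : re v (c + d) = re v c + re v d := by
  have h : v (c + d) ≤ 1 := (v.map_add c d).trans (max_le hc hd)
  rw [re_of v hc, re_of v hd, re_of v h, ← map_add]
  rfl

theorem re_neg (c : K) : re v (-c) = -re v c := by
  by_cases hc : v c ≤ 1
  · have h : v (-c) ≤ 1 := by rwa [Valuation.map_neg]
    rw [re_of v hc, re_of v h, ← map_neg]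
    rfl
  · have h : ¬ v (-c) ≤ 1 := by rwa [Valuation.map_neg]
    unfold re
    rw [dif_neg hc, dif_neg h, neg_zero]

theorem re_one : re v (1 : K) = 1 := by
  have h : v (1 : K) ≤ 1 := by rw [map_one]
  rw [re_of v h, ← map_one (IsLocalRing.residue v.valuationSubring)]
  rfl

theorem re_two : re v (2 : K) = 2 := by
  have h : v (1 : K) ≤ 1 := by rw [map_one]
  have h2 : (2 : K) = 1 + 1 := by norm_num
  rw [h2, re_add v h h, re_one]
  norm_num

theorem re_pow {c : K} (hc : v c ≤ 1) (n : ℕ) : re v (c ^ n) = re v c ^ n := by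
  induction n with
  | zero => rw [pow_zero, pow_zero, re_one]
  | succ n ih =>
    rw [pow_succ, pow_succ, re_mul v ?_ hc, ih]
    rw [map_pow]
    exact pow_le_one' hc n

theorem rd_one : rd v (1 : K[X]) = 1 := by
  have h : v (1 : K) ≤ 1 := by rw [map_one]
  rw [← C_1, rd_C v h, re_one, C_1]

/-- The reduction of a value. -/
theorem re_eval {p : K[X]} (hp : gn v p ≤ 1) {x : K} (hx : v x ≤ 1) :
    (rd v p).eval (re v x) = re v (p.eval x) := by
  obtain ⟨q, hq⟩ := X_sub_C_dvd_sub_C_eval (p := p) (a := x)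
  have hpx : v (p.eval x) ≤ 1 := (gn_eval v hx).trans hp
  have h1 : gn v (p - C (p.eval x)) ≤ 1 := (gn_sub_le v _ _).trans (max_le hp (by rwa [gn_C]))
  have h2 : gn v q ≤ 1 := by
    rw [hq, gn_mul, gn_X_sub_C v hx, one_mul] at h1
    exact h1
  have h3 : p = (X - C x) * q + C (p.eval x) := by
    rw [← hq]
    ring
  have h4 : gn v ((X - C x) * q) ≤ 1 := by
    rw [gn_mul, gn_X_sub_C v hx, one_mul]
    exact h2
  have h5 : rd v p = (X - C (re v x)) * rd v q + C (re v (p.eval x)) := by
    conv_lhs => rw [h3]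
    rw [rd_add v h4 (by rwa [gn_C]), rd_mul v (gn_X_sub_C v hx).le h2, rd_X_sub_C v hx, rd_C v hpx]
  rw [h5, eval_add, eval_mul, eval_sub, eval_X, eval_C, eval_C, sub_self, zero_mul, zero_add]

/-- The residue field of an algebraically closed field is algebraically closed. -/
theorem rf_algClosed [IsAlgClosed K] : IsAlgClosed (RF v) := by
  refine IsAlgClosed.of_exists_root _ fun p hp hirr => ?_
  have hl : p ∈ lifts (IsLocalRing.residue v.valuationSubring) := by
    rw [lifts_iff_coeff_lifts]
    intro k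
    exact IsLocalRing.residue_surjective _
  obtain ⟨P, hP1, hP2, hP3⟩ := lifts_and_natDegree_eq_and_monic hl hp
  have hdeg : (P.map v.valuationSubring.subtype).degree ≠ 0 := by
    intro h0
    have h1 : p.natDegree ≠ 0 := hirr.natDegree_pos.ne'
    have h2 : (P.map v.valuationSubring.subtype).natDegree = 0 := natDegree_eq_of_degree_eq_some h0
    rw [hP3.natDegree_map] at h2
    exact h1 (by rw [← hP2, h2])
  obtain ⟨x, hx⟩ := IsAlgClosed.exists_root _ hdeg
  have hint : IsIntegral v.valuationSubring x := by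
    refine ⟨P, hP3, ?_⟩
    rw [IsRoot.def, eval_map] at hx
    exact hx
  obtain ⟨y, hy⟩ := IsIntegrallyClosed.isIntegral_iff.1 hint
  refine ⟨IsLocalRing.residue v.valuationSubring y, ?_⟩
  rw [← hP1, eval_map_apply]
  have h1 : P.eval y = 0 := by
    have h2 : v.valuationSubring.subtype (P.eval y) = 0 := by
      rw [← eval_map_apply, ← hx, IsRoot.def] at *
      rw [← hy]
      rfl
    exact Subtype.val_injective (h2.trans (map_zero v.valuationSubring.subtype).symm)
  rw [h1, map_zero]

end elements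

section points

variable {K : Type*} [Field K] {Γ : Type*} [LinearOrderedCommGroupWithZero Γ] (v : Valuation K Γ)
  {g : ℕ} (a : Fin (2 * g + 1) → K)

/-- The reductions of the branch points. -/
noncomputable def ra : Fin (2 * g + 1) → RF v := fun i => re v (a i)

/-- The reductions of the integral points of a multiset of points. -/
noncomputable def redS (S : Multiset (K × K)) : Multiset (RF v × RF v) :=
  open scoped Classical in
  (S.filter fun P => v P.1 ≤ 1).map fun P => (re v P.1, re v P.2)

theorem ra_inj (ha : ∀ i, v (a i) ≤ 1) (hd : ∀ i j, i ≠ j → v (a i - a j) = 1) :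
    Function.Injective (ra v a) := by
  intro i j hij
  by_contra h
  have h1 := (re_eq_iff v (ha i) (ha j)).1 hij
  rw [hd i j h] at h1
  exact lt_irrefl _ h1

theorem two_ne (h2 : v (2 : K) = 1) : NeZero (2 : RF v) := by
  refine ⟨fun h => ?_⟩
  rw [← re_two v, re_eq_zero v h2.le, h2] at h
  exact lt_irrefl _ h

theorem redS_zero : redS v (0 : Multiset (K × K)) = 0 := by
  unfold redS
  rw [Multiset.filter_zero, Multiset.map_zero]

theorem redS_add (S T : Multiset (K × K)) : redS v (S + T) = redS v S + redS v T := by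
  unfold redS
  rw [Multiset.filter_add, Multiset.map_add]

theorem redS_cons_of {P : K × K} (h : v P.1 ≤ 1) (T : Multiset (K × K)) :
    redS v (P ::ₘ T) = (re v P.1, re v P.2) ::ₘ redS v T := by
  unfold redS
  rw [Multiset.filter_cons_of_pos (p := fun P : K × K => v P.1 ≤ 1) T h, Multiset.map_cons]

theorem redS_cons_not {P : K × K} (h : ¬ v P.1 ≤ 1) (T : Multiset (K × K)) :
    redS v (P ::ₘ T) = redS v T := by
  unfold redS
  rw [Multiset.filter_cons_of_neg (p := fun P : K × K => v P.1 ≤ 1) T h]

theorem redS_wS (S : Multiset (K × K)) : redS v (wS S) = wS (redS v S) := by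
  induction S using Multiset.induction_on with
  | empty => rfl
  | cons P T ih =>
    rw [wS_cons]
    by_cases h : v P.1 ≤ 1
    · rw [redS_cons_of v h, redS_cons_of v (P := wP P) h, wS_cons, ih]
      congr 1
      unfold wP
      rw [re_neg]
    · rw [redS_cons_not v h, redS_cons_not v (P := wP P) h, ih]

variable {a}

theorem gn_FF (ha : ∀ i, v (a i) ≤ 1) : gn v (FF a) = 1 := by
  unfold FF
  rw [gn_prod]
  exact Finset.prod_eq_one fun i _ => gn_X_sub_C v (ha i)

theorem rd_FF (ha : ∀ i, v (a i) ≤ 1) : rd v (FF a) = FF (ra v a) := by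
  unfold FF
  rw [rd_prod v _ _ fun i _ => (gn_X_sub_C v (ha i)).le]
  exact Finset.prod_congr rfl fun i _ => rd_X_sub_C v (ha i)

/-- A point of the curve with an integral first coordinate is integral. -/
theorem v_snd (ha : ∀ i, v (a i) ≤ 1) {P : K × K} (hP : P.2 ^ 2 = (FF a).eval P.1)
    (h : v P.1 ≤ 1) : v P.2 ≤ 1 := by
  have h1 : v ((FF a).eval P.1) ≤ 1 := (gn_eval v h).trans (gn_FF v ha).le
  rw [← hP, map_pow] at h1
  exact (pow_le_one_iff two_ne_zero).1 h1

theorem red_onC (ha : ∀ i, v (a i) ≤ 1) {P : K × K} (hP : P.2 ^ 2 = (FF a).eval P.1)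
    (h : v P.1 ≤ 1) : (re v P.2) ^ 2 = (FF (ra v a)).eval (re v P.1) := by
  rw [← re_pow v (v_snd v ha hP h), hP, ← rd_FF v ha, re_eval v (gn_FF v ha).le h]

theorem onC_redS (ha : ∀ i, v (a i) ≤ 1) {S : Multiset (K × K)} (hS : OnC a S) :
    OnC (ra v a) (redS v S) := by
  intro P hP
  unfold redS at hP
  obtain ⟨Q, hQ, rfl⟩ := Multiset.mem_map.1 hP
  rw [Multiset.mem_filter] at hQ
  exact red_onC v ha (hS Q hQ.1) hQ.2

end points

section ideals

variable {K : Type*} [Field K] {Γ : Type*} [LinearOrderedCommGroupWithZero Γ] (v : Valuation K Γ)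
  {g : ℕ} {a : Fin (2 * g + 1) → K} [NeZero (2 : K)] [Fact (Function.Injective a)]
  [NeZero (2 : RF v)] [Fact (Function.Injective (ra v a))]

/-- The reduction of an element of the ideal of a multiset of points. -/
theorem red_mem (ha : ∀ i, v (a i) ≤ 1) (S : Multiset (K × K)) (hS : OnC a S) (u w : K[X])
    (hu : gn v u ≤ 1) (hw : gn v w ≤ 1)
    (h : el (FF a) u w ∈ (S.map fun P => pI (FF a) P.1 P.2).prod) :
    el (FF (ra v a)) (rd v u) (rd v w) ∈
      ((redS v S).map fun P => pI (FF (ra v a)) P.1 P.2).prod := by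
  induction S using Multiset.induction_on generalizing u w with
  | empty =>
    rw [redS_zero, Multiset.map_zero, Multiset.prod_zero, Ideal.one_eq_top]
    exact Submodule.mem_top
  | cons P T ih =>
    rw [onC_cons] at hS
    obtain ⟨hP, hT⟩ := hS
    rw [Multiset.map_cons, Multiset.prod_cons] at h
    by_cases hp : v P.1 ≤ 1
    swap
    · rw [redS_cons_not v hp]
      have hle : pI (FF a) P.1 P.2 * (T.map fun P => pI (FF a) P.1 P.2).prod ≤
          (T.map fun P => pI (FF a) P.1 P.2).prod := Ideal.mul_le_right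
      exact ih hT u w hu hw (hle h)
    · rw [redS_cons_of v hp, Multiset.map_cons, Multiset.prod_cons]
      set I : Ideal (CR (FF a)) := (T.map fun P => pI (FF a) P.1 P.2).prod with hI
      set J : Ideal (CR (FF (ra v a))) :=
        ((redS v T).map fun P => pI (FF (ra v a)) P.1 P.2).prod with hJ
      have hb := v_snd v ha hP hp
      have hP' := red_onC v ha hP hp
      have hF := gn_FF v ha
      -- `z (y + b) = (x - p) z'`
      have h1 : el (FF a) u w * el (FF a) (C P.2) 1 ∈
          Ideal.span {el (FF a) (X - C P.1) 0} * I := by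
        rw [← pI_conj a hP]
        have h2 : el (FF a) (C P.2) 1 ∈ pI (FF a) P.1 (-P.2) := by
          unfold pI
          rw [neg_neg]
          exact Ideal.subset_span (by simp)
        have h3 := Ideal.mul_mem_mul h h2
        have h4 : pI (FF a) P.1 P.2 * I * pI (FF a) P.1 (-P.2) =
            pI (FF a) P.1 P.2 * pI (FF a) P.1 (-P.2) * I := by ring
        rwa [h4] at h3
      obtain ⟨t, ht, ht1⟩ := Ideal.mem_span_singleton_mul.1 h1
      obtain ⟨u', w', rfl⟩ := el_surj (FF a) t
      rw [el_mul, el_mul] at ht1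
      obtain ⟨e1, e2⟩ := el_inj _ ht1
      have e1' : (X - C P.1) * u' = u * C P.2 + w * FF a := by
        linear_combination e1
      have e2' : (X - C P.1) * w' = u + w * C P.2 := by
        linear_combination e2
      have hXP := gn_X_sub_C v hp
      have hCb : gn v (C P.2) ≤ 1 := by rwa [gn_C]
      have g1 : gn v (u * C P.2) ≤ 1 := by rw [gn_mul]; exact mul_le_one' hu hCb
      have g2 : gn v (w * FF a) ≤ 1 := by rw [gn_mul, hF, mul_one]; exact hw
      have g3 : gn v (w * C P.2) ≤ 1 := by rw [gn_mul]; exact mul_le_one' hw hCb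
      have hu' : gn v u' ≤ 1 := by
        have := (gn_add_le v (u * C P.2) (w * FF a)).trans (max_le g1 g2)
        rwa [← e1', gn_mul, hXP, one_mul] at this
      have hw' : gn v w' ≤ 1 := by
        have := (gn_add_le v u (w * C P.2)).trans (max_le hu g3)
        rwa [← e2', gn_mul, hXP, one_mul] at this
      have hle : pI (FF a) P.1 P.2 * I ≤ I := Ideal.mul_le_right
      have k1 := ih hT u w hu hw (hle h)
      have k2 := ih hT u' w' hu' hw' ht
      -- the equations modulo `v`
      have r1 : (X - C (re v P.1)) * rd v u' =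
          rd v u * C (re v P.2) + rd v w * FF (ra v a) := by
        have := congrArg (rd v) e1'
        rwa [rd_mul v hXP.le hu', rd_add v g1 g2, rd_mul v hu hCb, rd_mul v hw hF.le, rd_FF v ha,
          rd_X_sub_C v hp, rd_C v hb] at this
      have r2 : (X - C (re v P.1)) * rd v w' = rd v u + rd v w * C (re v P.2) := by
        have := congrArg (rd v) e2'
        rwa [rd_mul v hXP.le hw', rd_add v hu g3, rd_mul v hw hCb,
          rd_X_sub_C v hp, rd_C v hb] at this
      have s1 : el (FF (ra v a)) (rd v u) (rd v w) * el (FF (ra v a)) (C (re v P.2)) 1 =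
          el (FF (ra v a)) (X - C (re v P.1)) 0 * el (FF (ra v a)) (rd v u') (rd v w') := by
        rw [el_mul, el_mul]
        congr 1
        · linear_combination -r1
        · linear_combination -r2
      have key : Ideal.span {el (FF (ra v a)) (rd v u) (rd v w)} *
          pI (FF (ra v a)) (re v P.1) (-re v P.2) ≤
          pI (FF (ra v a)) (re v P.1) (re v P.2) * J * pI (FF (ra v a)) (re v P.1) (-re v P.2) := by
        have h4 : pI (FF (ra v a)) (re v P.1) (re v P.2) * J *
            pI (FF (ra v a)) (re v P.1) (-re v P.2) =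
            Ideal.span {el (FF (ra v a)) (X - C (re v P.1)) 0} * J := by
          rw [← pI_conj (ra v a) hP']
          ring
        rw [h4]
        have h5 : pI (FF (ra v a)) (re v P.1) (-re v P.2) = Ideal.span
            {el (FF (ra v a)) (X - C (re v P.1)) 0, el (FF (ra v a)) (C (re v P.2)) 1} := by
          unfold pI
          rw [neg_neg]
        rw [h5, Ideal.span_mul_span, Ideal.span_le]
        intro z hz
        obtain ⟨x, hx, y, hy, rfl⟩ := Set.mem_mul.1 hz
        rw [Set.mem_singleton_iff] at hx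
        subst hx
        rcases hy with rfl | rfl
        · rw [SetLike.mem_coe, mul_comm (el (FF (ra v a)) (rd v u) (rd v w))]
          exact Ideal.mul_mem_mul (Ideal.mem_span_singleton_self _) k1
        · rw [SetLike.mem_coe, s1]
          exact Ideal.mul_mem_mul (Ideal.mem_span_singleton_self _) k2
      have hdvd : pI (FF (ra v a)) (re v P.1) (re v P.2) * J ∣
          Ideal.span {el (FF (ra v a)) (rd v u) (rd v w)} := by
        rw [← Ideal.dvd_iff_le] at key
        exact (mul_dvd_mul_iff_right (pI_ne_bot (FF (ra v a)) _ _)).1 key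
      exact Ideal.dvd_iff_le.1 hdvd (Ideal.mem_span_singleton_self _)

omit [NeZero (2 : K)] [Fact (Function.Injective a)] [NeZero (2 : RF v)]
  [Fact (Function.Injective (ra v a))] in
/-- The factors `x - p` with `v p > 1` are constant modulo `v` after scaling. -/
theorem q_red (R : Multiset K) (hR : ∀ p ∈ R, ¬ v p ≤ 1) :
    ∃ (c : K) (h : K[X]), c ≠ 0 ∧ (R.map fun p => X - C p).prod = C c * h ∧ gn v h = 1 ∧
      rd v h = 1 := by
  induction R using Multiset.induction_on with
  | empty =>
    exact ⟨1, 1, one_ne_zero, by rw [Multiset.map_zero, Multiset.prod_zero, C_1, mul_one],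
      gn_one v, rd_one v⟩
  | cons p R ih =>
    obtain ⟨c, h, hc, h1, h2, h3⟩ := ih fun q hq => hR q (Multiset.mem_cons_of_mem hq)
    have hp := hR p (Multiset.mem_cons_self _ _)
    have hp0 : p ≠ 0 := by
      rintro rfl
      exact hp (by rw [map_zero]; exact zero_le)
    have hpi : v p⁻¹ < 1 := by
      rw [map_inv₀]
      exact inv_lt_one_of_one_lt₀ (not_le.1 hp)
    have hX : gn v (X : K[X]) ≤ 1 := by
      rw [gn_le_iff]
      intro i
      rw [coeff_X]
      split_ifs
      · rw [map_one]
      · rw [map_zero]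
        exact zero_le
    have g1 : gn v (C p⁻¹ * X) < 1 := by
      rw [gn_mul, gn_C]
      exact lt_of_le_of_lt (mul_le_of_le_one_right' hX) hpi
    have g2 : gn v (1 - C p⁻¹ * X) = 1 := by
      rw [sub_eq_add_neg, gn_add_eq v, gn_one]
      rw [gn_neg, gn_one]
      exact g1
    have g3 : rd v (1 - C p⁻¹ * X) = 1 := by
      rw [rd_sub v (gn_one v).le g1.le, rd_one, (rd_eq_zero v g1.le).2 g1, sub_zero]
    refine ⟨-p * c, (1 - C p⁻¹ * X) * h, mul_ne_zero (neg_ne_zero.2 hp0) hc, ?_, ?_, ?_⟩
    · rw [Multiset.map_cons, Multiset.prod_cons, h1]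
      have e : (X - C p : K[X]) = C (-p) * (1 - C p⁻¹ * X) := by
        have e1 : (C p * C p⁻¹ : K[X]) = 1 := by rw [← C_mul, mul_inv_cancel₀ hp0, C_1]
        rw [C_neg]
        linear_combination -X * e1
      rw [e, C_mul]
      ring
    · rw [gn_mul, g2, h2, one_mul]
    · rw [rd_mul v g2.le h2.le, g3, h3, one_mul]

omit [NeZero (2 : K)] [Fact (Function.Injective a)] [NeZero (2 : RF v)]
  [Fact (Function.Injective (ra v a))] in
theorem prod_red (R : Multiset K) (hR : ∀ p ∈ R, v p ≤ 1) :
    gn v (R.map fun p => X - C p).prod = 1 ∧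
      rd v (R.map fun p => X - C p).prod = (R.map fun p => X - C (re v p)).prod := by
  induction R using Multiset.induction_on with
  | empty =>
    rw [Multiset.map_zero, Multiset.prod_zero, Multiset.map_zero, Multiset.prod_zero]
    exact ⟨gn_one v, rd_one v⟩
  | cons p R ih =>
    obtain ⟨h1, h2⟩ := ih fun q hq => hR q (Multiset.mem_cons_of_mem hq)
    have hp := gn_X_sub_C v (hR p (Multiset.mem_cons_self _ _))
    rw [Multiset.map_cons, Multiset.prod_cons, Multiset.map_cons, Multiset.prod_cons]
    refine ⟨by rw [gn_mul, hp, h1, one_mul], ?_⟩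
    rw [rd_mul v hp.le h1.le, h2, rd_X_sub_C v (hR p (Multiset.mem_cons_self _ _))]

omit [NeZero (2 : K)] [Fact (Function.Injective a)] [NeZero (2 : RF v)]
  [Fact (Function.Injective (ra v a))] in
/-- The degree of the reduction of a polynomial of Gauss norm at most one is at most the number of its
integral roots. -/
theorem deg_red [IsAlgClosed K] {N : K[X]} (hN : gn v N ≤ 1) {R : Multiset K}
    (hR : R = N.roots) : (rd v N).natDegree ≤
      Multiset.card (open scoped Classical in R.filter fun p => v p ≤ 1) := by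
  classical
  have e1 : N = C N.leadingCoeff * (R.map fun r => X - C r).prod := by
    rw [hR]
    exact (IsAlgClosed.splits N).eq_prod_roots
  have e2 : R = R.filter (fun p => v p ≤ 1) + R.filter (fun p => ¬ v p ≤ 1) :=
    (Multiset.filter_add_not _ R).symm
  obtain ⟨c, h, hc, h1, h2, h3⟩ := q_red v (R.filter fun p => ¬ v p ≤ 1)
    (fun p hp => (Multiset.mem_filter.1 hp).2)
  obtain ⟨k1, k2⟩ := prod_red v (R.filter fun p => v p ≤ 1)
    (fun p hp => (Multiset.mem_filter.1 hp).2)
  have e3 : N = C (N.leadingCoeff * c) *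
      (h * ((R.filter fun p => v p ≤ 1).map fun r => X - C r).prod) := by
    conv_lhs => rw [e1, e2]
    rw [Multiset.map_add, Multiset.prod_add, h1, C_mul]
    ring
  have k3 : gn v (h * ((R.filter fun p => v p ≤ 1).map fun r => X - C r).prod) = 1 := by
    rw [gn_mul, h2, k1, one_mul]
  have k4 : v (N.leadingCoeff * c) ≤ 1 := by
    have := hN
    rw [e3, gn_mul, k3, mul_one, gn_C] at this
    exact this
  have k5 : rd v N = C (re v (N.leadingCoeff * c)) *
      ((R.filter fun p => v p ≤ 1).map fun p => X - C (re v p)).prod := by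
    conv_lhs => rw [e3]
    rw [rd_mul v (by rwa [gn_C]) k3.le, rd_C v k4, rd_mul v h2.le k1.le, h3, k2, one_mul]
  rw [k5]
  refine (natDegree_C_mul_le _ _).trans ?_
  have e4 : ((R.filter fun p => v p ≤ 1).map fun p => X - C (re v p)).prod =
      (((R.filter fun p => v p ≤ 1).map fun p => re v p).map fun p => X - C p).prod := by
    rw [Multiset.map_map]
    rfl
  rw [e4, natDegree_multiset_prod_X_sub_C_eq_card, Multiset.card_map]

omit [NeZero (2 : K)] [Fact (Function.Injective a)] [NeZero (2 : RF v)]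
  [Fact (Function.Injective (ra v a))] in
/-- Scaling to Gauss norm one. -/
theorem scale (u w : K[X]) (h0 : u ≠ 0 ∨ w ≠ 0) : ∃ c : K, c ≠ 0 ∧
    gn v (C c * u) ≤ 1 ∧ gn v (C c * w) ≤ 1 ∧ (gn v (C c * u) = 1 ∨ gn v (C c * w) = 1) := by
  obtain ⟨i, hi⟩ := exists_gn v u
  obtain ⟨j, hj⟩ := exists_gn v w
  rcases le_total (gn v u) (gn v w) with h | h
  · have hw : gn v w ≠ 0 := by
      intro hw
      have hu : gn v u = 0 := le_antisymm (by rwa [hw] at h) zero_le
      rcases h0 with h0 | h0
      · exact h0 ((gn_eq_zero v).1 hu)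
      · exact h0 ((gn_eq_zero v).1 hw)
    have hc : w.coeff j ≠ 0 := by
      intro hc
      rw [hc, map_zero] at hj
      exact hw hj.symm
    have e : gn v (C (w.coeff j)⁻¹ * w) = 1 := by
      rw [gn_mul, gn_C, map_inv₀, hj, inv_mul_cancel₀ hw]
    refine ⟨(w.coeff j)⁻¹, inv_ne_zero hc, ?_, e.le, Or.inr e⟩
    rw [gn_mul, gn_C, map_inv₀, hj]
    calc (gn v w)⁻¹ * gn v u ≤ (gn v w)⁻¹ * gn v w := mul_le_mul' le_rfl h
      _ = 1 := inv_mul_cancel₀ hw
  · have hu : gn v u ≠ 0 := by
      intro hu
      have hw : gn v w = 0 := le_antisymm (by rwa [hu] at h) zero_le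
      rcases h0 with h0 | h0
      · exact h0 ((gn_eq_zero v).1 hu)
      · exact h0 ((gn_eq_zero v).1 hw)
    have hc : u.coeff i ≠ 0 := by
      intro hc
      rw [hc, map_zero] at hi
      exact hu hi.symm
    have e : gn v (C (u.coeff i)⁻¹ * u) = 1 := by
      rw [gn_mul, gn_C, map_inv₀, hi, inv_mul_cancel₀ hu]
    refine ⟨(u.coeff i)⁻¹, inv_ne_zero hc, e.le, ?_, Or.inl e⟩
    rw [gn_mul, gn_C, map_inv₀, hi]
    calc (gn v u)⁻¹ * gn v w ≤ (gn v u)⁻¹ * gn v u := mul_le_mul' le_rfl h
      _ = 1 := inv_mul_cancel₀ hu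

/-- The reduction of a principal divisor. -/
theorem red_one [IsAlgClosed K] (ha : ∀ i, v (a i) ≤ 1) (S : Multiset (K × K)) (hS : OnC a S)
    (h : clS a S = 1) : clS (ra v a) (redS v S) = 1 := by
  classical
  have hcl : IsAlgClosed (RF v) := rf_algClosed v
  obtain ⟨u₀, w₀, h0, h1⟩ := (cl_prod_eq_one_iff a S).1 h
  obtain ⟨c, hc, hu, hw, huw⟩ := scale v u₀ w₀ h0
  set u : K[X] := C c * u₀ with hudef
  set w : K[X] := C c * w₀ with hwdef
  have hsp : Ideal.span {el (FF a) u w} = Ideal.span {el (FF a) u₀ w₀} := by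
    have e2 : el (FF a) u w = el (FF a) (C c) 0 * el (FF a) u₀ w₀ := by
      rw [el_mul, hudef, hwdef]
      simp
    have hu2 : IsUnit (el (FF a) (C c) 0) := by
      refine IsUnit.of_mul_eq_one (el (FF a) (C c⁻¹) 0) ?_
      rw [el_mul]
      simp only [mul_zero, zero_mul, add_zero, ← C_mul]
      rw [mul_inv_cancel₀ hc, C_1, el_one]
    rw [e2]
    exact Ideal.span_singleton_mul_left_unit hu2 _
  rw [← hsp] at h1
  have hmem := red_mem v ha S hS u w hu hw (by rw [h1]; exact Ideal.mem_span_singleton_self _)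
  -- the norm
  have huw0 : u ≠ 0 ∨ w ≠ 0 := by
    rcases huw with h2 | h2
    · left
      rintro h3
      rw [h3, gn_zero] at h2
      exact zero_ne_one h2
    · right
      rintro h3
      rw [h3, gn_zero] at h2
      exact zero_ne_one h2
  have hr0 : rd v u ≠ 0 ∨ rd v w ≠ 0 := by
    rcases huw with h2 | h2
    · left
      rw [Ne, rd_eq_zero v hu, h2]
      exact lt_irrefl _
    · right
      rw [Ne, rd_eq_zero v hw, h2]
      exact lt_irrefl _
  obtain ⟨S', hS', hS1, hS2⟩ := fct a u w huw0
  have hSS : S = S' := by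
    apply le_antisymm
    · exact fct_unique a S' S hS' hS (by rw [← hS1, h1])
    · exact fct_unique a S S' hS hS' (by rw [← hS1, h1])
  subst hSS
  obtain ⟨T, hT, hT1, hT2⟩ := fct (ra v a) (rd v u) (rd v w) hr0
  have hle : redS v S ≤ T := by
    refine fct_unique (ra v a) T (redS v S) hT (onC_redS v ha hS) ?_
    rw [← hT1, Ideal.span_singleton_le_iff_mem]
    exact hmem
  have hN0 : u ^ 2 - w ^ 2 * FF a ≠ 0 := by
    intro hN
    obtain ⟨hu3, hw3⟩ := par_deg u w (FF a) (cra_FF_odd a) (sub_eq_zero.1 hN)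
    rcases huw0 with h3 | h3
    · exact h3 hu3
    · exact h3 hw3
  have hu2 : gn v (u ^ 2) ≤ 1 := by
    rw [gn_pow]
    exact pow_le_one' hu 2
  have hw2 : gn v (w ^ 2) ≤ 1 := by
    rw [gn_pow]
    exact pow_le_one' hw 2
  have hF := gn_FF v ha
  have hwF : gn v (w ^ 2 * FF a) ≤ 1 := by
    rw [gn_mul, hF, mul_one]
    exact hw2
  have hN : gn v (u ^ 2 - w ^ 2 * FF a) ≤ 1 := (gn_sub_le v _ _).trans (max_le hu2 hwF)
  have hrN : rd v (u ^ 2 - w ^ 2 * FF a) = rd v u ^ 2 - rd v w ^ 2 * FF (ra v a) := by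
    rw [rd_sub v hu2 hwF, rd_mul v hw2 hF.le, rd_pow v hu, rd_pow v hw, rd_FF v ha]
  have hcard : Multiset.card T ≤ Multiset.card (redS v S) := by
    have e1 : Multiset.card T = Multiset.card (T.map Prod.fst) := (Multiset.card_map _ _).symm
    have e2 : Multiset.card (redS v S) =
        Multiset.card ((S.map Prod.fst).filter fun p => v p ≤ 1) := by
      unfold redS
      rw [Multiset.card_map, Multiset.filter_map, Multiset.card_map]
      rfl
    rw [e1, hT2, e2, ← hrN]
    refine (card_roots' _).trans ?_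
    convert deg_red v hN hS2
  have hTS : redS v S = T := Multiset.eq_of_le_of_card_le hle hcard
  rw [clS, cl_prod_eq_one_iff]
  exact ⟨rd v u, rd v w, hr0, by rw [hTS, hT1]⟩

theorem red_eq [IsAlgClosed K] (ha : ∀ i, v (a i) ≤ 1) {S S' : Multiset (K × K)} (hS : OnC a S)
    (hS' : OnC a S') (h : clS a S = clS a S') :
    clS (ra v a) (redS v S) = clS (ra v a) (redS v S') := by
  have h1 : clS a (S + wS S') = 1 := by
    rw [clS_add, clS_wS a hS', h, mul_inv_cancel]
  have h2 := red_one v ha (S + wS S') ((onC_add a).2 ⟨hS, onC_wS a hS'⟩) h1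
  rw [redS_add, redS_wS, clS_add, clS_wS (ra v a) (onC_redS v ha hS')] at h2
  exact mul_inv_eq_one.1 h2

/-- **The reduction of the class group.** -/
theorem exists_rho [IsAlgClosed K] (ha : ∀ i, v (a i) ≤ 1) :
    ∃ r : ClassGroup (CR (FF a)) →* ClassGroup (CR (FF (ra v a))),
      ∀ S, OnC a S → r (clS a S) = clS (ra v a) (redS v S) := by
  choose f hf1 hf2 using exists_points a
  have key : ∀ S, OnC a S → clS (ra v a) (redS v (f (clS a S))) = clS (ra v a) (redS v S) :=
    fun S hS => red_eq v ha (hf1 _) hS (hf2 _)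
  refine ⟨{ toFun := fun c => clS (ra v a) (redS v (f c)), map_one' := ?_, map_mul' := ?_ }, key⟩
  · have h := key 0 (onC_zero a)
    rw [redS_zero, clS_zero, clS_zero] at h
    exact h
  · intro c d
    have h := key (f c + f d) ((onC_add a).2 ⟨hf1 c, hf1 d⟩)
    rw [clS_add, hf2, hf2, redS_add, clS_add] at h
    exact h

end ideals

end GJ
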